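import Pool.Agent.T9h51.AF.Ind

/-!
# One-parameter families of matrices of complex logarithms
-/

set_option autoImplicit false

namespace Pool.Agent.T9h51.AF

open Polynomial Filter Topology
open Pool.Agent.Y921.SR (ZeroProp)

variable {r : ℕ}

/-- the local statement -/
theorem complex_local (g : Fin r → ℂ[X]) (hg : MultIndep g) (A : ℝ) (n : ℕ) (t0 : ℂ) (ht0 : ∀ k, (g k).eval t0 ≠ 0) :
    ∃ U ∈ 𝓝 t0, ∃ N : ℕ, ∀ (K : Type) [Field K] [Algebra K ℂ] (V : Submodule K ℂ), ZeroProp V →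
    ∀ W : Matrix (Fin n) (Fin n) ℂ, (∀ i j, W i j ∈ V) → ∀ B : Fin r → Matrix (Fin n) (Fin n) K,
    (∃ w v : Fin n → K, w ≠ 0 ∧ v ≠ 0 ∧ ∑ i, ∑ j, (w i * v j) • W i j = 0 ∧ ∀ k, ∑ i, ∑ j, w i * B k i j * v j = 0) ∨
    ∀ Z : Finset ℂ, (∀ t ∈ Z, t ∈ U ∧ ∃ l : Fin r → ℂ, (∀ k, Complex.exp (l k) = (g k).eval t ∧ ‖l k‖ ≤ A) ∧
      (W + ∑ k, l k • (B k).map (algebraMap K ℂ)).det = 0) → Z.card ≤ N := by
  classical
  obtain ⟨q, hq⟩ : ∃ q : Fin r → ℂ → ℂ, ∀ k t, q k t = (g k).eval t / (g k).eval t0 := ⟨_, fun _ _ => rfl⟩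
  have hqc : ∀ k, Continuous (q k) := by
    intro k
    have : q k = fun t => (g k).eval t / (g k).eval t0 := funext (hq k)
    rw [this]
    fun_prop
  have hq0 : ∀ k, q k t0 = 1 := fun k => by rw [hq, div_self (ht0 k)]
  obtain ⟨T, hTdef⟩ : ∃ T : Set ℂ, T = Metric.closedBall t0 1 ∩ {t | ∀ k, ‖q k t - 1‖ ≤ 1 / 2} := ⟨_, rfl⟩
  have hTc : IsCompact T := by
    rw [hTdef]
    refine (isCompact_closedBall t0 1).inter_right ?_
    rw [Set.setOf_forall]
    refine isClosed_iInter fun k => ?_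
    exact isClosed_le (((hqc k).sub continuous_const).norm) continuous_const
  have hTn : T ∈ 𝓝 t0 := by
    rw [hTdef]
    refine Filter.inter_mem (Metric.closedBall_mem_nhds t0 one_pos) ?_
    have h1 : ∀ k, ∀ᶠ t in 𝓝 t0, ‖q k t - 1‖ ≤ 1 / 2 := by
      intro k
      have h2 : Tendsto (fun t => ‖q k t - 1‖) (𝓝 t0) (𝓝 ‖q k t0 - 1‖) :=
        (((hqc k).sub continuous_const).norm).tendsto t0
      rw [hq0, sub_self, norm_zero] at h2
      exact h2.eventually (ge_mem_nhds (by norm_num))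
    exact Filter.eventually_all.2 h1
  have hslit : ∀ z : ℂ, ‖z - 1‖ ≤ 1 / 2 → z ∈ Complex.slitPlane := by
    intro z hz
    left
    have h1 := (Complex.abs_re_le_norm (z - 1)).trans hz
    rw [Complex.sub_re, Complex.one_re] at h1
    have := (abs_le.1 h1).1
    linarith
  have hTs : ∀ t ∈ T, ∀ k, q k t ∈ Complex.slitPlane := by
    intro t ht k
    rw [hTdef] at ht
    exact hslit _ (ht.2 k)
  have hne : ∀ t, (∀ k, q k t ∈ Complex.slitPlane) → ∀ k, (g k).eval t ≠ 0 := by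
    intro t ht k h0
    have h1 := Complex.slitPlane_ne_zero (ht k)
    rw [hq, h0, zero_div] at h1
    exact h1 rfl
  obtain ⟨y, hy⟩ : ∃ y : Fin r → ℂ → ℂ, ∀ k t, y k t = Complex.log (q k t) + Complex.log ((g k).eval t0) := ⟨_, fun _ _ => rfl⟩
  have hyexp : ∀ t, (∀ k, q k t ∈ Complex.slitPlane) → ∀ k, Complex.exp (y k t) = (g k).eval t := by
    intro t ht k
    rw [hy, Complex.exp_add, Complex.exp_log (Complex.slitPlane_ne_zero (ht k)), Complex.exp_log (ht0 k), hq,
      div_mul_cancel₀ _ (ht0 k)]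
  have hqd : ∀ k t, HasDerivAt (q k) ((derivative (g k)).eval t / (g k).eval t0) t := by
    intro k t
    have : q k = fun t => (g k).eval t / (g k).eval t0 := funext (hq k)
    rw [this]
    exact ((g k).hasDerivAt t).div_const _
  have hqan : ∀ k t, AnalyticAt ℂ (q k) t := by
    intro k t
    have : q k = fun t => (g k).eval t / (g k).eval t0 := funext (hq k)
    rw [this]
    exact (AnalyticOnNhd.eval_polynomial (g k) t (Set.mem_univ _)).div analyticAt_const (ht0 k)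
  have hyan : ∀ t, (∀ k, q k t ∈ Complex.slitPlane) → ∀ k, AnalyticAt ℂ (y k) t := by
    intro t ht k
    have : y k = fun t => Complex.log (q k t) + Complex.log ((g k).eval t0) := funext (hy k)
    rw [this]
    exact ((hqan k t).clog (ht k)).add analyticAt_const
  have hyd : ∀ t, (∀ k, q k t ∈ Complex.slitPlane) → ∀ k, HasDerivAt (y k) ((derivative (g k)).eval t / (g k).eval t) t := by
    intro t ht k
    have : y k = fun t => Complex.log (q k t) + Complex.log ((g k).eval t0) := funext (hy k)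
    rw [this]
    have h1 := ((hqd k t).clog (ht k)).add_const (Complex.log ((g k).eval t0))
    have h2 : (derivative (g k)).eval t / (g k).eval t0 / q k t = (derivative (g k)).eval t / (g k).eval t := by
      have h3 := hne t ht k
      have h4 := ht0 k
      rw [hq]
      field_simp
    rw [h2] at h1
    exact h1
  -- bound for the logarithms
  obtain ⟨R, hR⟩ : ∃ R : ℝ, ∀ t ∈ T, ∀ k, ‖y k t‖ ≤ R := by
    have h1 : ∀ k, ∃ R : ℝ, ∀ t ∈ T, ‖y k t‖ ≤ R := by
      intro k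
      exact hTc.exists_bound_of_continuousOn fun t ht =>
        (hyan t (hTs t ht) k).continuousAt.continuousWithinAt
    choose R hR using h1
    refine ⟨∑ k, |R k|, fun t ht k => (hR k t ht).trans ((le_abs_self _).trans ?_)⟩
    exact Finset.single_le_sum (f := fun k => |R k|) (fun _ _ => abs_nonneg _) (Finset.mem_univ k)
  obtain ⟨M, hM⟩ := exists_nat_ge (A + R)
  -- the shifted functions
  have hloc : ∀ m : Fin r → ℤ, ∃ N : ℕ, ∀ (K : Type) [Field K] [Algebra K ℂ] (V : Submodule K ℂ), ZeroProp V →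
      ∀ W : Matrix (Fin n) (Fin n) ℂ, (∀ i j, W i j ∈ V) → ∀ B : Fin r → Matrix (Fin n) (Fin n) K,
      (∃ w v : Fin n → K, w ≠ 0 ∧ v ≠ 0 ∧ ∑ i, ∑ j, (w i * v j) • W i j = 0 ∧ ∀ k, ∑ i, ∑ j, w i * B k i j * v j = 0) ∨
      ∀ Z : Finset ℂ, (∀ t ∈ Z, t ∈ T ∧ (W + ∑ k, (y k t + m k * (2 * Real.pi * Complex.I)) •
        (B k).map (algebraMap K ℂ)).det = 0) → Z.card ≤ N := by
    intro m
    refine main (fun k t => y k t + m k * (2 * Real.pi * Complex.I)) T hTc (fun t ht k => ?_) (fun t ht => ?_) n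
    · exact (hyan t (hTs t ht) k).add analyticAt_const
    · refine log_indep g hg _ t (hne t (hTs t ht)) (fun k => ?_) fun k => ?_
      · exact (hyan t (hTs t ht) k).add analyticAt_const
      · have h1 : ∀ᶠ s in 𝓝 t, ∀ k, q k s ∈ Complex.slitPlane := by
          rw [Filter.eventually_all]
          intro k
          exact (hqc k).continuousAt.eventually (Complex.isOpen_slitPlane.mem_nhds (hTs t ht k))
        filter_upwards [h1] with s hs
        have h2 := (hyd s hs k).add_const ((m k : ℂ) * (2 * Real.pi * Complex.I))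
        rw [h2.deriv, div_mul_cancel₀ _ (hne s hs k)]
  choose N hN using hloc
  refine ⟨T, hTn, ∑ m ∈ Fintype.piFinset fun _ : Fin r => Finset.Icc (-(M : ℤ)) M, N m, fun K _ _ V hV W hW B => ?_⟩
  by_cases hex : ∃ w v : Fin n → K, w ≠ 0 ∧ v ≠ 0 ∧ ∑ i, ∑ j, (w i * v j) • W i j = 0 ∧ ∀ k, ∑ i, ∑ j, w i * B k i j * v j = 0
  · left
    exact hex
  right
  intro Z hZ
  obtain ⟨F, hF⟩ : ∃ F : (Fin r → ℤ) → Finset ℂ, ∀ m, F m = Z.filter fun t => (W + ∑ k, (y k t + m k * (2 * Real.pi * Complex.I)) •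
        (B k).map (algebraMap K ℂ)).det = 0 := ⟨_, fun _ => rfl⟩
  have hFc : ∀ m, (F m).card ≤ N m := by
    intro m
    refine (hN m K V hV W hW B).resolve_left hex (F m) fun t ht => ?_
    rw [hF, Finset.mem_filter] at ht
    exact ⟨(hZ t ht.1).1, ht.2⟩
  have hsub : Z ⊆ (Fintype.piFinset fun _ : Fin r => Finset.Icc (-(M : ℤ)) M).biUnion F := by
    intro t ht
    obtain ⟨htT, l, hl, hdet⟩ := hZ t ht
    have h1 : ∀ k, ∃ m : ℤ, l k = y k t + m * (2 * Real.pi * Complex.I) := by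
      intro k
      apply Complex.exp_eq_exp_iff_exists_int.1
      rw [(hl k).1, hyexp t (hTs t htT)]
    choose m hm using h1
    rw [Finset.mem_biUnion]
    refine ⟨m, ?_, ?_⟩
    · rw [Fintype.mem_piFinset]
      intro k
      have h2 : ‖(m k : ℂ) * (2 * Real.pi * Complex.I)‖ ≤ A + R := by
        have h3 : (m k : ℂ) * (2 * Real.pi * Complex.I) = l k - y k t := by
          rw [hm k]
          ring
        rw [h3]
        exact (norm_sub_le _ _).trans (add_le_add (hl k).2 (hR t htT k))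
      have h3 : ‖(m k : ℂ) * (2 * Real.pi * Complex.I)‖ = |(m k : ℝ)| * (2 * Real.pi) := by
        rw [norm_mul, norm_mul, norm_mul, Complex.norm_I, mul_one, Complex.norm_intCast, Complex.norm_real, Complex.norm_ofNat,
          Real.norm_of_nonneg Real.pi_pos.le]
      have h4 : |(m k : ℝ)| ≤ M := by
        have h5 : (1 : ℝ) ≤ 2 * Real.pi := by
          have := Real.pi_gt_three
          linarith
        have h6 := abs_nonneg (m k : ℝ)
        rw [h3] at h2
        nlinarith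
      rw [Finset.mem_Icc]
      have h5 := abs_le.1 h4
      constructor
      · exact_mod_cast h5.1
      · exact_mod_cast h5.2
    · rw [hF, Finset.mem_filter]
      refine ⟨ht, ?_⟩
      simp only [← hm]
      exact hdet
  exact (Finset.card_le_card hsub).trans (Finset.card_biUnion_le.trans (Finset.sum_le_sum fun m _ => hFc m))

/-- **The complex case.** -/
theorem complex (g : Fin r → ℂ[X]) (hg : MultIndep g) (A : ℝ) (n : ℕ) :
    ∃ N : ℕ, ∀ (K : Type) [Field K] [Algebra K ℂ] (V : Submodule K ℂ), ZeroProp V →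
    ∀ W : Matrix (Fin n) (Fin n) ℂ, (∀ i j, W i j ∈ V) → ∀ B : Fin r → Matrix (Fin n) (Fin n) K,
    (∃ w v : Fin n → K, w ≠ 0 ∧ v ≠ 0 ∧ ∑ i, ∑ j, (w i * v j) • W i j = 0 ∧ ∀ k, ∑ i, ∑ j, w i * B k i j * v j = 0) ∨
    ∀ Z : Finset ℂ, (∀ t ∈ Z, ∃ l : Fin r → ℂ, (∀ k, Complex.exp (l k) = (g k).eval t ∧ ‖l k‖ ≤ A) ∧
      (W + ∑ k, l k • (B k).map (algebraMap K ℂ)).det = 0) → Z.card ≤ N := by
  classical
  rcases Nat.eq_zero_or_pos r with rfl | hr
  · refine ⟨0, fun K _ _ V hV W hW B => ?_⟩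
    by_cases hdet : W.det = 0
    · left
      rcases Nat.eq_zero_or_pos n with rfl | hn
      · rw [Matrix.det_fin_zero] at hdet
        exact absurd hdet one_ne_zero
      · obtain ⟨w, v, hw, hv, h⟩ := hV n hn W hW hdet
        exact ⟨w, v, hw, hv, h, fun k => k.elim0⟩
    · right
      intro Z hZ
      rw [Nat.le_zero, Finset.card_eq_zero]
      by_contra hne
      obtain ⟨t, ht⟩ := Finset.nonempty_iff_ne_empty.2 hne
      obtain ⟨l, -, h⟩ := hZ t ht
      rw [Finset.univ_eq_empty, Finset.sum_empty, add_zero] at h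
      exact hdet h
  -- the compact set
  obtain ⟨S, hS⟩ : ∃ S : Set ℂ, S = {t | ∀ k, Real.exp (-A) ≤ ‖(g k).eval t‖ ∧ ‖(g k).eval t‖ ≤ Real.exp A} := ⟨_, rfl⟩
  have hScl : IsClosed S := by
    rw [hS, Set.setOf_forall]
    refine isClosed_iInter fun k => ?_
    have h1 : Continuous fun t : ℂ => ‖(g k).eval t‖ := by fun_prop
    exact (isClosed_le continuous_const h1).inter (isClosed_le h1 continuous_const)
  have hScomp : IsCompact S := by
    have hdeg : 0 < (g ⟨0, hr⟩).degree := by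
      rw [← not_le]
      intro hle
      have h1 := eq_C_of_degree_le_zero hle
      have h2 := hg (fun j => if j = ⟨0, hr⟩ then 1 else 0) (fun _ => 0) ((g ⟨0, hr⟩).coeff 0) (by
        rw [Finset.prod_eq_single ⟨0, hr⟩]
        · rw [if_pos rfl, pow_one]
          simp only [pow_zero, Finset.prod_const_one, mul_one]
          exact h1
        · intro j _ hj
          rw [if_neg hj, pow_zero]
        · exact fun h => absurd (Finset.mem_univ _) h)
      have h3 := congrFun h2 ⟨0, hr⟩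
      simp at h3
    have h1 : Tendsto (fun z : ℂ => ‖(g ⟨0, hr⟩).eval z‖) (cocompact ℂ) atTop :=
      Polynomial.tendsto_norm_atTop _ hdeg tendsto_norm_cocompact_atTop
    have h2 := h1.eventually (eventually_gt_atTop (Real.exp A))
    obtain ⟨t, htc, ht⟩ := Filter.mem_cocompact.1 h2
    refine htc.of_isClosed_subset hScl fun z hz => ?_
    by_contra hzt
    have h3 : Real.exp A < ‖(g ⟨0, hr⟩).eval z‖ := ht hzt
    rw [hS] at hz
    exact absurd (hz ⟨0, hr⟩).2 (not_le.2 h3)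
  have hSne : ∀ t ∈ S, ∀ k, (g k).eval t ≠ 0 := by
    intro t ht k h0
    rw [hS] at ht
    have := (ht k).1
    rw [h0, norm_zero] at this
    exact absurd this (not_le.2 (Real.exp_pos _))
  have key : ∃ N : ℕ, ∀ (K : Type) [Field K] [Algebra K ℂ] (V : Submodule K ℂ), ZeroProp V →
      ∀ W : Matrix (Fin n) (Fin n) ℂ, (∀ i j, W i j ∈ V) → ∀ B : Fin r → Matrix (Fin n) (Fin n) K,
      (∃ w v : Fin n → K, w ≠ 0 ∧ v ≠ 0 ∧ ∑ i, ∑ j, (w i * v j) • W i j = 0 ∧ ∀ k, ∑ i, ∑ j, w i * B k i j * v j = 0) ∨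
      ∀ Z : Finset ℂ, (∀ t ∈ Z, t ∈ S ∧ ∃ l : Fin r → ℂ, (∀ k, Complex.exp (l k) = (g k).eval t ∧ ‖l k‖ ≤ A) ∧
        (W + ∑ k, l k • (B k).map (algebraMap K ℂ)).det = 0) → Z.card ≤ N := by
    refine hScomp.induction_on (p := fun S => ∃ N : ℕ, ∀ (K : Type) [Field K] [Algebra K ℂ] (V : Submodule K ℂ), ZeroProp V →
      ∀ W : Matrix (Fin n) (Fin n) ℂ, (∀ i j, W i j ∈ V) → ∀ B : Fin r → Matrix (Fin n) (Fin n) K,
      (∃ w v : Fin n → K, w ≠ 0 ∧ v ≠ 0 ∧ ∑ i, ∑ j, (w i * v j) • W i j = 0 ∧ ∀ k, ∑ i, ∑ j, w i * B k i j * v j = 0) ∨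
      ∀ Z : Finset ℂ, (∀ t ∈ Z, t ∈ S ∧ ∃ l : Fin r → ℂ, (∀ k, Complex.exp (l k) = (g k).eval t ∧ ‖l k‖ ≤ A) ∧
        (W + ∑ k, l k • (B k).map (algebraMap K ℂ)).det = 0) → Z.card ≤ N) ?_ ?_ ?_ ?_
    · refine ⟨0, fun K _ _ V hV W hW B => Or.inr fun Z hZ => ?_⟩
      rw [Nat.le_zero, Finset.card_eq_zero]
      by_contra hne
      obtain ⟨t, ht⟩ := Finset.nonempty_iff_ne_empty.2 hne
      exact (hZ t ht).1
    · rintro s t hst ⟨N, hN⟩
      refine ⟨N, fun K _ _ V hV W hW B => ?_⟩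
      rcases hN K V hV W hW B with h | h
      · exact Or.inl h
      · exact Or.inr fun Z hZ => h Z fun x hx => ⟨hst (hZ x hx).1, (hZ x hx).2⟩
    · rintro s t ⟨N, hN⟩ ⟨N', hN'⟩
      refine ⟨N + N', fun K _ _ V hV W hW B => ?_⟩
      rcases hN K V hV W hW B with h | h
      · exact Or.inl h
      rcases hN' K V hV W hW B with h' | h'
      · exact Or.inl h'
      refine Or.inr fun Z hZ => ?_
      have h1 : Z = Z.filter (fun x => x ∈ s) ∪ Z.filter (fun x => x ∉ s) := (Finset.filter_union_filter_not_eq _ _).symm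
      rw [h1]
      refine (Finset.card_union_le _ _).trans (add_le_add ?_ ?_)
      · exact h _ fun x hx => by
          rw [Finset.mem_filter] at hx
          exact ⟨hx.2, (hZ x hx.1).2⟩
      · exact h' _ fun x hx => by
          rw [Finset.mem_filter] at hx
          exact ⟨(hZ x hx.1).1.resolve_left hx.2, (hZ x hx.1).2⟩
    · intro t0 ht0
      obtain ⟨U, hU, N, hN⟩ := complex_local g hg A n t0 (hSne t0 ht0)
      exact ⟨U, mem_nhdsWithin_of_mem_nhds hU, N, hN⟩
  obtain ⟨N, hN⟩ := key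
  refine ⟨N, fun K _ _ V hV W hW B => ?_⟩
  rcases hN K V hV W hW B with h | h
  · exact Or.inl h
  refine Or.inr fun Z hZ => h Z fun t ht => ⟨?_, hZ t ht⟩
  obtain ⟨l, hl, -⟩ := hZ t ht
  rw [hS]
  intro k
  have h1 : ‖(g k).eval t‖ = Real.exp (l k).re := by
    rw [← (hl k).1, Complex.norm_exp]
  have h2 := (Complex.abs_re_le_norm (l k)).trans (hl k).2
  have h3 := abs_le.1 h2
  rw [h1]
  exact ⟨Real.exp_le_exp.2 h3.1, Real.exp_le_exp.2 h3.2⟩

end Pool.Agent.T9h51.AF
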