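import Pool.Agent.T9h51.AF.Ind

/-!
# Linear polynomials are multiplicatively independent
-/

set_option autoImplicit false

namespace Pool.Agent.T9h51.AF

open Polynomial

theorem multIndep_linear {L : Type} [Field L] {r : ℕ} (θ : Fin r → L) (hθ : Function.Injective θ) :
    MultIndep fun k => X + C (θ k) := by
  classical
  intro a b γ h
  have hne : ∀ e : Fin r → ℕ, ∏ k, (X + C (θ k) : L[X]) ^ e k ≠ 0 := by
    intro e
    rw [Finset.prod_ne_zero_iff]
    exact fun k _ => pow_ne_zero _ (X_add_C_ne_zero _)
  have hroot : ∀ (e : Fin r → ℕ) (j : Fin r), (∏ k, (X + C (θ k) : L[X]) ^ e k).rootMultiplicity (-θ j) = e j := by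
    intro e j
    rw [← count_roots, roots_prod _ _ (hne e), Multiset.count_bind]
    simp only [roots_pow, Multiset.count_nsmul, roots_X_add_C]
    rw [show (Multiset.map (fun k => e k * Multiset.count (-θ j) {-θ k}) Finset.univ.val).sum =
      ∑ k, e k * Multiset.count (-θ j) {-θ k} from rfl, Finset.sum_eq_single j]
    · simp
    · intro k _ hk
      rw [Multiset.count_singleton, if_neg, mul_zero]
      intro h1
      exact hk (hθ (neg_injective h1.symm))
    · simp
  have hγ : γ ≠ 0 := by
    rintro rfl
    apply hne a
    rw [h, map_zero, zero_mul]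
  funext j
  have h1 := congrArg (fun p => p.rootMultiplicity (-θ j)) h
  simp only at h1
  rw [hroot, ← count_roots, roots_C_mul _ hγ, count_roots, hroot] at h1
  exact h1

end Pool.Agent.T9h51.AF
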