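import Pool.Agent.T9h51.AF.Loc

/-!
# The zeros in a compact set of the linear combinations of analytic functions
-/

set_option autoImplicit false

namespace Pool.Agent.T9h51.AF

open Finset Filter Topology

variable {K : Type*} [NontriviallyNormedField K] [CompleteSpace K]

omit [CompleteSpace K] in
lemma coeffs {f : K → K} {t0 : K} (hf : AnalyticAt K f t0) : ∃ (a : ℕ → K) (A R : ℝ), 0 < R ∧ (∀ n, ‖a n‖ * R ^ n ≤ A) ∧
    ∀ᶠ z in 𝓝 (0 : K), f (t0 + z) = ev a z := by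
  obtain ⟨p, hp⟩ := hf
  have hrad := hp.radius_pos
  obtain ⟨R, hR0, hR⟩ := ENNReal.lt_iff_exists_nnreal_btwn.1 hrad
  obtain ⟨A, hA, hb⟩ := p.norm_mul_pow_le_of_lt_radius hR
  have hR1 : (0 : ℝ) < R := by exact_mod_cast hR0
  refine ⟨fun n => p.coeff n, A, R, hR1, fun n => ?_, ?_⟩
  · rw [← FormalMultilinearSeries.norm_apply_eq_norm_coef]
    exact hb n
  · filter_upwards [hp.eventually_hasSum] with z hz
    rw [← hz.tsum_eq]
    unfold ev
    apply tsum_congr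
    intro n
    rw [FormalMultilinearSeries.apply_eq_pow_smul_coeff, smul_eq_mul, mul_comm]

omit [CompleteSpace K] in
lemma ev_comb {ι : Type*} [Fintype ι] (a : ι → ℕ → K) (c : ι → K) (z : K) (h : ∀ i, Summable fun n => a i n * z ^ n) :
    ev (fun n => ∑ i, c i * a i n) z = ∑ i, c i * ev (a i) z := by
  unfold ev
  have h1 : ∀ n, (∑ i, c i * a i n) * z ^ n = ∑ i, c i * (a i n * z ^ n) := by
    intro n
    rw [sum_mul]
    exact sum_congr rfl fun i _ => by ring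
  rw [tsum_congr h1, Summable.tsum_finsetSum fun i _ => (h i).mul_left _]
  exact sum_congr rfl fun i _ => by rw [tsum_mul_left]

/-- the local bound -/
theorem local_analytic {ι : Type*} [Fintype ι] (F : ι → K → K) (t0 : K) (hF : ∀ i, AnalyticAt K (F i) t0)
    (hind : ∀ c : ι → K, (∀ᶠ t in 𝓝 t0, ∑ i, c i * F i t = 0) → c = 0) :
    ∃ N : ℕ, ∃ U ∈ 𝓝 t0, ∀ c : ι → K, c ≠ 0 → ∀ Z : Finset K, (∀ t ∈ Z, t ∈ U ∧ ∑ i, c i * F i t = 0) → Z.card ≤ N := by
  classical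
  choose a A R hR hb hev using fun i => coeffs (hF i)
  have hsum : ∀ᶠ z in 𝓝 (0 : K), ∀ i, ‖z‖ ≤ R i / 2 := by
    rw [eventually_all]
    intro i
    have h1 : Tendsto (fun z : K => ‖z‖) (𝓝 0) (𝓝 0) := by
      have := (continuous_norm (E := K)).tendsto 0
      rwa [norm_zero] at this
    exact (h1.eventually (gt_mem_nhds (half_pos (hR i)))).mono fun z hz => le_of_lt hz
  have hevall : ∀ᶠ z in 𝓝 (0 : K), ∀ i, F i (t0 + z) = ev (a i) z := by
    rw [eventually_all]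
    exact hev
  have hmap' : Tendsto (fun t : K => t - t0) (𝓝 t0) (𝓝 0) := by
    have h1 : Continuous fun s : K => s - t0 := by fun_prop
    have := h1.tendsto t0
    rwa [sub_self] at this
  have hval : ∀ (c : ι → K) (z : K), (∀ i, ‖z‖ ≤ R i / 2) → (∀ i, F i (t0 + z) = ev (a i) z) →
      ∑ i, c i * F i (t0 + z) = ev (fun n => ∑ i, c i * a i n) z := by
    intro c z h1 h2
    rw [ev_comb a c z fun i => by
      have := summ (a i) (A i) (R i) (hR i) (hb i) z (h1 i) 0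
      simpa using this]
    exact sum_congr rfl fun i _ => by rw [h2]
  obtain ⟨N, ρ, hρ, key⟩ := local_zeros a (fun c hc => by
    apply hind
    filter_upwards [hmap'.eventually hsum, hmap'.eventually hevall] with t h1 h2
    have h3 := hval c (t - t0) h1 h2
    rw [add_sub_cancel] at h3
    rw [h3]
    unfold ev
    simp [hc]) fun i => ⟨A i, R i, hR i, hb i⟩
  refine ⟨N, {t | (∀ i, ‖t - t0‖ ≤ R i / 2) ∧ (∀ i, F i (t0 + (t - t0)) = ev (a i) (t - t0)) ∧ ‖t - t0‖ ≤ ρ}, ?_, ?_⟩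
  · have h1 : Tendsto (fun z : K => ‖z‖) (𝓝 0) (𝓝 0) := by
      have := (continuous_norm (E := K)).tendsto 0
      rwa [norm_zero] at this
    have h2 : ∀ᶠ z in 𝓝 (0 : K), ‖z‖ ≤ ρ := (h1.eventually (gt_mem_nhds hρ)).mono fun z hz => le_of_lt hz
    filter_upwards [hmap'.eventually hsum, hmap'.eventually hevall, hmap'.eventually h2] with t h3 h4 h5
    exact ⟨h3, h4, h5⟩
  · intro c hc Z hZ
    have h1 := key c hc (Z.image fun t => t - t0) (by
      intro z hz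
      rw [mem_image] at hz
      obtain ⟨t, ht, rfl⟩ := hz
      obtain ⟨⟨h2, h3, h4⟩, h5⟩ := hZ t ht
      refine ⟨h4, ?_⟩
      rw [← hval c (t - t0) h2 h3, add_sub_cancel]
      exact h5)
    rwa [card_image_of_injective _ (fun x y hxy => sub_left_injective hxy)] at h1

/-- **The bound for a compact set.** -/
theorem compact_analytic {ι : Type*} [Fintype ι] (F : ι → K → K) (T : Set K) (hT : IsCompact T)
    (hF : ∀ t ∈ T, ∀ i, AnalyticAt K (F i) t)
    (hind : ∀ t0 ∈ T, ∀ c : ι → K, (∀ᶠ t in 𝓝 t0, ∑ i, c i * F i t = 0) → c = 0) :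
    ∃ N : ℕ, ∀ c : ι → K, c ≠ 0 → ∀ Z : Finset K, (∀ t ∈ Z, t ∈ T ∧ ∑ i, c i * F i t = 0) → Z.card ≤ N := by
  classical
  have h1 : ∀ t0 : K, ∃ (N : ℕ) (U : Set K), t0 ∈ T → U ∈ 𝓝 t0 ∧ ∀ c : ι → K, c ≠ 0 → ∀ Z : Finset K,
      (∀ t ∈ Z, t ∈ U ∧ ∑ i, c i * F i t = 0) → Z.card ≤ N := by
    intro t0
    by_cases h : t0 ∈ T
    · obtain ⟨N, U, hU, key⟩ := local_analytic F t0 (hF t0 h) (hind t0 h)
      exact ⟨N, U, fun _ => ⟨hU, key⟩⟩
    · exact ⟨0, ∅, fun h' => absurd h' h⟩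
  choose N U hU using h1
  obtain ⟨s, hs, hcov⟩ := hT.elim_nhds_subcover U fun x hx => (hU x hx).1
  refine ⟨∑ x ∈ s, N x, fun c hc Z hZ => ?_⟩
  have hsub : Z ⊆ s.biUnion fun x => Z.filter fun t => t ∈ U x := by
    intro t ht
    have h2 := hcov (hZ t ht).1
    rw [Set.mem_iUnion₂] at h2
    obtain ⟨x, hx, htx⟩ := h2
    rw [mem_biUnion]
    exact ⟨x, hx, mem_filter.2 ⟨ht, htx⟩⟩
  refine (card_le_card hsub).trans (card_biUnion_le.trans (sum_le_sum fun x hx => ?_))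
  exact (hU x (hs x hx)).2 c hc _ fun t ht => ⟨(mem_filter.1 ht).2, (hZ t (mem_filter.1 ht).1).2⟩

end Pool.Agent.T9h51.AF
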