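import Pool.Agent.T9h51.AF.Main
import Pool.Agent.Y796.LI.Core
import Pool.Agent.W924.LF.Germ

/-!
# Functions with the logarithmic derivatives of multiplicatively independent polynomials are algebraically independent
-/

set_option autoImplicit false

namespace Pool.Agent.T9h51.AF

open Polynomial Filter Topology

variable {r : ℕ}

section algebra

variable {L : Type} [Field L]

/-- the polynomials are multiplicatively independent modulo the constants -/
def MultIndep (g : Fin r → L[X]) : Prop :=
  ∀ (a b : Fin r → ℕ) (γ : L), ∏ k, g k ^ a k = C γ * ∏ k, g k ^ b k → a = b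

theorem MultIndep.ne_zero {g : Fin r → L[X]} (h : MultIndep g) (k : Fin r) : g k ≠ 0 := by
  classical
  intro h0
  have h1 := h (fun j => if j = k then 1 else 0) (fun _ => 0) 0 (by
    rw [map_zero, zero_mul]
    apply Finset.prod_eq_zero (Finset.mem_univ k)
    rw [if_pos rfl, h0, pow_one])
  have h2 := congrFun h1 k
  simp at h2

/-- the product of the polynomials -/
noncomputable def GG (g : Fin r → L[X]) : L[X] := ∏ k, g k

/-- the numerators of the logarithmic derivatives -/
noncomputable def qq (g : Fin r → L[X]) (k : Fin r) : L[X] := (∏ l ∈ Finset.univ.erase k, g l) * derivative (g k)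

variable [CharZero L] [IsAlgClosed L]

theorem residues (g : Fin r → L[X]) (hg : ∀ k, g k ≠ 0) (c : Fin r → L) (A Q : L[X]) (hQ : Q ≠ 0) (hc : IsCoprime A Q)
    (h : Q * Q * ∑ k, C (c k) * qq g k = GG g * (Q * derivative A - A * derivative Q)) (ρ : L) :
    ∑ k, c k * ((g k).rootMultiplicity ρ : L) = 0 := by
  classical
  obtain ⟨R, hR⟩ : ∃ R : Finset L, R = Finset.univ.biUnion fun k => (g k).roots.toFinset := ⟨_, rfl⟩
  have hmem : ∀ x, x ∉ R → ∀ k, (g k).eval x ≠ 0 := by
    intro x hx k h0
    apply hx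
    rw [hR, Finset.mem_biUnion]
    exact ⟨k, Finset.mem_univ _, by rw [Multiset.mem_toFinset, mem_roots (hg k)]; exact h0⟩
  obtain ⟨b, hb⟩ : ∃ b : L → L, ∀ σ, b σ = ∑ k, c k * ((g k).rootMultiplicity σ : L) := ⟨_, fun _ => rfl⟩
  by_cases hρ : ρ ∈ R
  swap
  · -- not a root
    refine Finset.sum_eq_zero fun k _ => ?_
    rw [rootMultiplicity_eq_zero (hmem ρ hρ k), Nat.cast_zero, mul_zero]
  set T : L[X] := ∏ σ ∈ R, (X - C σ) with hT
  set W : L[X] := ∑ σ ∈ R, C (b σ) * ∏ τ ∈ R.erase σ, (X - C τ) with hW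
  have hTev : ∀ x, x ∉ R → T.eval x ≠ 0 := by
    intro x hx
    rw [hT, eval_prod, Finset.prod_ne_zero_iff]
    intro σ hσ
    rw [eval_sub, eval_X, eval_C, sub_ne_zero]
    rintro rfl
    exact hx hσ
  have hWev : ∀ x, x ∉ R → W.eval x / T.eval x = ∑ σ ∈ R, b σ * (1 / (x - σ)) := by
    intro x hx
    rw [hW, eval_finsetSum, Finset.sum_div]
    refine Finset.sum_congr rfl fun σ hσ => ?_
    have h1 : T.eval x = (x - σ) * (∏ τ ∈ R.erase σ, (X - C τ)).eval x := by
      rw [hT, ← Finset.mul_prod_erase _ _ hσ, eval_mul, eval_sub, eval_X, eval_C]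
    have h2 : (∏ τ ∈ R.erase σ, (X - C τ)).eval x ≠ 0 := by
      intro h0
      apply hTev x hx
      rw [h1, h0, mul_zero]
    rw [h1, eval_mul, eval_C, mul_div_mul_right _ _ h2, mul_one_div]
  have hlog : ∀ x, x ∉ R → ∀ k, (derivative (g k)).eval x / (g k).eval x =
      ∑ σ ∈ R, ((g k).rootMultiplicity σ : L) * (1 / (x - σ)) := by
    intro x hx k
    rw [(IsAlgClosed.splits (g k)).eval_derivative_div_eval_of_ne_zero (hmem x hx k)]
    rw [Finset.sum_multiset_map_count]
    rw [Finset.sum_subset (s₂ := R)]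
    · refine Finset.sum_congr rfl fun σ _ => ?_
      rw [count_roots, nsmul_eq_mul]
    · rw [hR]
      exact Finset.subset_biUnion_of_mem (fun k => (g k).roots.toFinset) (Finset.mem_univ k)
    · intro σ _ hσ
      rw [Multiset.mem_toFinset] at hσ
      rw [Multiset.count_eq_zero_of_notMem hσ, zero_smul]
  have hSev : ∀ x, x ∉ R → (∑ k, C (c k) * qq g k).eval x / (GG g).eval x =
      ∑ k, c k * ((derivative (g k)).eval x / (g k).eval x) := by
    intro x hx
    rw [eval_finsetSum, Finset.sum_div]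
    refine Finset.sum_congr rfl fun k _ => ?_
    have h1 : (GG g).eval x = (∏ l ∈ Finset.univ.erase k, (g l).eval x) * (g k).eval x := by
      unfold GG
      rw [← Finset.prod_erase_mul _ _ (Finset.mem_univ k), eval_mul, eval_prod]
    have h2 : (C (c k) * qq g k).eval x = c k * ((∏ l ∈ Finset.univ.erase k, (g l).eval x) *
        (derivative (g k)).eval x) := by
      unfold qq
      rw [eval_mul, eval_mul, eval_C, eval_prod]
    have h3 : (∏ l ∈ Finset.univ.erase k, (g l).eval x) ≠ 0 := by
      rw [Finset.prod_ne_zero_iff]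
      exact fun l _ => hmem x hx l
    rw [h1, h2, mul_div_assoc, mul_div_mul_left _ _ h3]
  have hGev : ∀ x, x ∉ R → (GG g).eval x ≠ 0 := by
    intro x hx
    unfold GG
    rw [eval_prod, Finset.prod_ne_zero_iff]
    intro k _
    exact hmem x hx k
  -- the identity
  have hid : Q * Q * W = T * (Q * derivative A - A * derivative Q) := by
    apply Polynomial.eq_of_infinite_eval_eq
    refine Set.Infinite.mono (s := {x | x ∉ R}) ?_ ?_
    · intro x hx
      have e1 := congrArg (fun p => p.eval x) h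
      simp only [eval_mul, eval_sub] at e1
      have e2 := hSev x hx
      have e3 : ∑ k, c k * ((derivative (g k)).eval x / (g k).eval x) = W.eval x / T.eval x := by
        rw [hWev x hx]
        simp only [hlog x hx, hb, Finset.mul_sum, Finset.sum_mul]
        rw [Finset.sum_comm]
        exact Finset.sum_congr rfl fun σ _ => Finset.sum_congr rfl fun k _ => by ring
      rw [e3, div_eq_div_iff (hGev x hx) (hTev x hx)] at e2
      show (Q * Q * W).eval x = _
      simp only [eval_mul, eval_sub]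
      apply mul_left_cancel₀ (hGev x hx)
      linear_combination (T.eval x) * e1 - (Q.eval x * Q.eval x) * e2
    · have : Infinite L := inferInstance
      exact (Set.Finite.infinite_compl R.finite_toSet)
  have hTsf : Squarefree T := by
    rw [hT]
    have : T.Separable := by
      rw [hT]
      exact separable_prod_X_sub_C_iff'.2 fun x _ y _ h => h
    exact this.squarefree
  have hTmon : T.Monic := monic_prod_of_monic _ _ fun σ _ => monic_X_sub_C σ
  have hTdeg : T.natDegree = R.card := by
    rw [hT, natDegree_prod_of_monic _ _ fun σ _ => monic_X_sub_C σ]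
    simp
  have hWdeg : W.degree < T.degree := by
    rw [degree_eq_natDegree hTmon.ne_zero, hTdeg, hW]
    refine (degree_sum_le _ _).trans_lt ?_
    rw [Finset.sup_lt_iff (WithBot.bot_lt_coe _)]
    intro σ hσ
    have hle : (C (b σ) * ∏ τ ∈ R.erase σ, (X - C τ)).degree ≤ (∏ τ ∈ R.erase σ, (X - C τ)).degree := by
      rw [← smul_eq_C_mul]
      exact degree_smul_le _ _
    refine hle.trans_lt ?_
    rw [degree_prod_of_monic _ _ fun τ _ => monic_X_sub_C τ]
    simp only [degree_X_sub_C, Finset.sum_const, Finset.card_erase_of_mem hσ]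
    rw [nsmul_one]
    have : 0 < R.card := Finset.card_pos.2 ⟨σ, hσ⟩
    exact_mod_cast Nat.sub_lt this one_pos
  have hW0 : W = 0 := Pool.Agent.Y796.LI.key T W A Q hTsf hWdeg hQ hc hid
  have hbρ : b ρ = 0 := by
    have e1 := congrArg (fun p => p.eval ρ) hW0
    simp only [eval_zero] at e1
    rw [hW, eval_finsetSum, Finset.sum_eq_single ρ] at e1
    · rw [eval_mul, eval_C, eval_prod] at e1
      refine (mul_eq_zero.1 e1).resolve_right ?_
      rw [← ne_eq, Finset.prod_ne_zero_iff]
      intro τ hτ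
      rw [eval_sub, eval_X, eval_C, sub_ne_zero]
      exact (Finset.ne_of_mem_erase hτ).symm
    · intro σ hσ hne
      rw [eval_mul, eval_prod]
      refine mul_eq_zero_of_right _ (Finset.prod_eq_zero (i := ρ) (Finset.mem_erase.2 ⟨hne.symm, hρ⟩) ?_)
      simp
    · exact fun h => absurd hρ h
  rw [hb] at hbρ
  exact hbρ

omit [CharZero L] [IsAlgClosed L] in
theorem exists_fun {V : Type} [AddCommGroup V] [Module ℚ V] {z : V} (hz : z ≠ 0) : ∃ ℓ : V →ₗ[ℚ] ℚ, ℓ z ≠ 0 := by
  by_contra hcon
  push Not at hcon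
  exact hz ((Module.forall_dual_apply_eq_zero_iff ℚ z).1 hcon)

theorem combos {g : Fin r → L[X]} (hg : MultIndep g) (c : Fin r → L) (h : ∀ ρ : L, ∑ k, c k * ((g k).rootMultiplicity ρ : L) = 0) :
    c = 0 := by
  classical
  by_contra hcon
  obtain ⟨k0, hk0⟩ : ∃ k, c k ≠ 0 := by
    by_contra h'
    push Not at h'
    exact hcon (funext h')
  obtain ⟨ℓ, hℓ⟩ := exists_fun hk0
  have h1 : ∀ ρ : L, ∑ k, ℓ (c k) * ((g k).rootMultiplicity ρ : ℚ) = 0 := by
    intro ρ
    have h2 := congrArg ℓ (h ρ)
    rw [map_sum, map_zero] at h2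
    rw [← h2]
    refine Finset.sum_congr rfl fun k _ => ?_
    have h3 : c k * ((g k).rootMultiplicity ρ : L) = ((g k).rootMultiplicity ρ : ℚ) • c k := by
      rw [Rat.smul_def]
      push_cast
      ring
    rw [h3, map_smul, smul_eq_mul, mul_comm]
  -- common denominator
  obtain ⟨N, hN⟩ : ∃ N : ℕ, N = ∏ k, (ℓ (c k)).den := ⟨_, rfl⟩
  have hN0 : N ≠ 0 := by
    rw [hN, Finset.prod_ne_zero_iff]
    exact fun k _ => (ℓ (c k)).den_nz
  have hint : ∀ k, ∃ z : ℤ, (z : ℚ) = N * ℓ (c k) := by
    intro k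
    obtain ⟨M, hM⟩ : (ℓ (c k)).den ∣ N := by
      rw [hN]
      exact Finset.dvd_prod_of_mem _ (Finset.mem_univ k)
    refine ⟨M * (ℓ (c k)).num, ?_⟩
    rw [hM]
    push_cast
    have := Rat.mul_den_eq_num (ℓ (c k))
    rw [← this]
    ring
  choose z hz using hint
  have h2 : ∀ ρ : L, ∑ k, z k * ((g k).rootMultiplicity ρ : ℤ) = 0 := by
    intro ρ
    have h3 : ∑ k, (z k : ℚ) * ((g k).rootMultiplicity ρ : ℚ) = 0 := by
      simp only [hz, mul_assoc]
      rw [← Finset.mul_sum, h1, mul_zero]
    exact_mod_cast h3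
  have hz0 : z k0 ≠ 0 := by
    intro h0
    have h3 := hz k0
    rw [h0, Int.cast_zero] at h3
    rcases mul_eq_zero.1 h3.symm with h4 | h4
    · exact hN0 (by exact_mod_cast h4)
    · exact hℓ h4
  -- the two products
  obtain ⟨a, ha⟩ : ∃ a : Fin r → ℕ, ∀ k, a k = (z k).toNat := ⟨_, fun _ => rfl⟩
  obtain ⟨b, hb⟩ : ∃ b : Fin r → ℕ, ∀ k, b k = (-z k).toNat := ⟨_, fun _ => rfl⟩
  have hab : ∀ k, (a k : ℤ) - b k = z k := by
    intro k
    rw [ha, hb]
    omega
  have hp0 : ∀ e : Fin r → ℕ, (∏ k, g k ^ e k) ≠ 0 := by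
    intro e
    rw [Finset.prod_ne_zero_iff]
    exact fun k _ => pow_ne_zero _ (hg.ne_zero k)
  have hroot : ∀ (e : Fin r → ℕ) (ρ : L), (∏ k, g k ^ e k).rootMultiplicity ρ = ∑ k, e k * (g k).rootMultiplicity ρ := by
    intro e ρ
    rw [← count_roots, roots_prod _ _ (hp0 e), Multiset.count_bind]
    simp only [roots_pow, Multiset.count_nsmul, count_roots]
    rfl
  have hreq : (∏ k, g k ^ a k).roots = (∏ k, g k ^ b k).roots := by
    ext ρ
    rw [count_roots, count_roots, hroot, hroot]
    have h3 := h2 ρ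
    simp only [← hab, sub_mul, Finset.sum_sub_distrib] at h3
    have h4 : (∑ k, (a k : ℤ) * ((g k).rootMultiplicity ρ : ℤ)) = ∑ k, (b k : ℤ) * ((g k).rootMultiplicity ρ : ℤ) := by linarith
    exact_mod_cast h4
  obtain ⟨p, hp⟩ : ∃ p, p = ∏ k, g k ^ a k := ⟨_, rfl⟩
  obtain ⟨q, hq⟩ : ∃ q, q = ∏ k, g k ^ b k := ⟨_, rfl⟩
  have hq1 := hp0 b
  rw [← hp, ← hq] at hreq
  rw [← hq] at hq1
  have e1 := (IsAlgClosed.splits p).eq_prod_roots
  have e2 := (IsAlgClosed.splits q).eq_prod_roots
  have hq0 : q.leadingCoeff ≠ 0 := by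
    rw [Ne, leadingCoeff_eq_zero]
    exact hq1
  rw [hreq] at e1
  obtain ⟨M, hM⟩ : ∃ M, M = (Multiset.map (fun x => X - C x) q.roots).prod := ⟨_, rfl⟩
  rw [← hM] at e1 e2
  have e3 : p = C (p.leadingCoeff / q.leadingCoeff) * q := by
    calc p = C p.leadingCoeff * M := e1
      _ = C (p.leadingCoeff / q.leadingCoeff) * (C q.leadingCoeff * M) := by
          rw [← mul_assoc, ← C_mul, div_mul_cancel₀ _ hq0]
      _ = C (p.leadingCoeff / q.leadingCoeff) * q := by rw [← e2]
  rw [hp, hq] at e3
  have h5 := hg a b _ e3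
  have h6 := congrFun h5 k0
  have h7 := hab k0
  rw [h6, sub_self] at h7
  exact hz0 h7.symm

end algebra

section analysis

variable {L : Type} [NontriviallyNormedField L] [CompleteSpace L] [CharZero L] [IsAlgClosed L]

/-- **Independence.** -/
theorem log_indep (g : Fin r → L[X]) (hg : MultIndep g) (y : Fin r → L → L) (t0 : L) (ht0 : ∀ k, (g k).eval t0 ≠ 0)
    (hyt : ∀ k, AnalyticAt L (y k) t0)
    (hyd : ∀ k, ∀ᶠ t in 𝓝 t0, deriv (y k) t * (g k).eval t = (derivative (g k)).eval t) : IndepAt y t0 := by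
  classical
  intro P hP
  have ht0' : (GG g).eval t0 ≠ 0 := by
    unfold GG
    rw [eval_prod, Finset.prod_ne_zero_iff]
    exact fun k _ => ht0 k
  obtain ⟨E, _, _, D, T, hconst, hTc, hTadd, hTmul, hTder, hTinj, hTcongr⟩ := Pool.Agent.W924.LF.t_GERM L
  have : CharZero E := charZero_of_injective_algebraMap (algebraMap L E).injective
  have hsh : ∀ f : L → L, AnalyticAt L f t0 → AnalyticAt L (fun s => f (t0 + s)) 0 := by
    intro f hf
    have h1 : AnalyticAt L (fun s : L => t0 + s) 0 := analyticAt_const.add analyticAt_id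
    have h2 : AnalyticAt L f (t0 + 0) := by rwa [add_zero]
    exact AnalyticAt.comp (g := f) (f := fun s : L => t0 + s) h2 h1
  have hmap : Tendsto (fun s : L => t0 + s) (𝓝 0) (𝓝 t0) := by
    have h1 : Continuous fun s : L => t0 + s := by fun_prop
    have := h1.tendsto 0
    rwa [add_zero] at this
  have hmap' : Tendsto (fun t : L => t - t0) (𝓝 t0) (𝓝 0) := by
    have h1 : Continuous fun s : L => s - t0 := by fun_prop
    have := h1.tendsto t0
    rwa [sub_self] at this
  obtain ⟨τ, hτ⟩ : ∃ τ : E, τ = T (fun s => t0 + s) := ⟨_, rfl⟩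
  have hpolyan : ∀ P : L[X], AnalyticAt L (fun s => P.eval (t0 + s)) 0 := fun P =>
    hsh _ (AnalyticOnNhd.eval_polynomial P t0 (Set.mem_univ _))
  have hid : AnalyticAt L (fun s : L => t0 + s) 0 := analyticAt_const.add analyticAt_id
  have hpoly : ∀ P : L[X], T (fun s => P.eval (t0 + s)) = aeval τ P := by
    intro P
    induction P using Polynomial.induction_on with
    | C x => simp only [eval_C, aeval_C]; exact hTc x
    | add P Q hP hQ =>
      simp only [eval_add, map_add]
      rw [hTadd _ _ (hpolyan P) (hpolyan Q), hP, hQ]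
    | monomial n x ih =>
      have h1 : (fun s => (C x * X ^ (n + 1)).eval (t0 + s)) = fun s => (C x * X ^ n).eval (t0 + s) * (t0 + s) := by
        funext s
        rw [pow_succ, ← mul_assoc, eval_mul, eval_X]
      rw [h1, hTmul _ _ (hpolyan _) hid, ih, pow_succ, ← mul_assoc, map_mul _ _ X, aeval_X, hτ]
  have htr : ∀ Q : L[X], aeval τ Q = 0 → Q = 0 := by
    intro Q hQ
    rw [← hpoly] at hQ
    have h1 := hTinj _ (hpolyan Q) hQ
    have h2 : ∀ᶠ t in 𝓝 t0, Q.eval t = 0 := by
      filter_upwards [hmap'.eventually h1] with t ht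
      simpa using ht
    exact Polynomial.eq_zero_of_infinite_isRoot Q (infinite_of_mem_nhds t0 h2)
  have hDτ : D τ = 1 := by
    rw [hτ, ← hTder _ hid]
    have h1 : deriv (fun s : L => t0 + s) = fun _ => 1 := by
      funext s
      simp
    rw [h1, hTc, map_one]
  obtain ⟨u, hu⟩ : ∃ u : Fin r → E, ∀ k, u k = T (fun s => y k (t0 + s)) := ⟨_, fun _ => rfl⟩
  have hyan : ∀ k, AnalyticAt L (fun s => y k (t0 + s)) 0 := fun k => hsh _ (hyt k)
  have hDy : ∀ k, D (u k) * aeval τ (GG g) = aeval τ (qq g k) := by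
    intro k
    rw [hu, ← hTder _ (hyan k), ← hpoly, ← hpoly, ← hTmul _ _ (hyan k).deriv (hpolyan _)]
    apply hTcongr
    filter_upwards [hmap.eventually (hyd k)] with s hs
    have h1 : deriv (fun s => y k (t0 + s)) s = deriv (y k) (t0 + s) := by
      rw [deriv_comp_const_add]
    have h2 : (GG g).eval (t0 + s) = (∏ l ∈ Finset.univ.erase k, (g l).eval (t0 + s)) * (g k).eval (t0 + s) := by
      unfold GG
      rw [← Finset.prod_erase_mul _ _ (Finset.mem_univ k), eval_mul, eval_prod]
    have h3 : (qq g k).eval (t0 + s) = (∏ l ∈ Finset.univ.erase k, (g l).eval (t0 + s)) * (derivative (g k)).eval (t0 + s) := by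
      unfold qq
      rw [eval_mul, eval_prod]
    rw [h1, h2, h3, ← hs]
    ring
  -- the field of rational functions
  let F := FractionRing L[X]
  have hτinj : Function.Injective ((aeval τ : L[X] →ₐ[L] E) : L[X] →+* E) := by
    rw [injective_iff_map_eq_zero]
    exact htr
  letI : Algebra F E := (IsFractionRing.lift (K := F) hτinj).toAlgebra
  have hmapF : ∀ p : L[X], algebraMap F E (algebraMap L[X] F p) = aeval τ p := fun p =>
    IsFractionRing.lift_algebraMap hτinj p
  haveI : IsScalarTower L F E := by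
    apply IsScalarTower.of_algebraMap_eq
    intro x
    have h1 : algebraMap L F x = algebraMap L[X] F (C x) := by
      rw [IsScalarTower.algebraMap_apply L L[X] F]
      rfl
    rw [h1, hmapF, aeval_C]
  obtain ⟨DF, hDF⟩ := Pool.Agent.TH600.LC.exists_der_frac (Polynomial.derivative' (R := L))
  have hDaeval : ∀ p : L[X], D (aeval τ p) = aeval τ (derivative p) := by
    intro p
    rw [Derivation.map_aeval, hDτ, smul_eq_mul, mul_one]
  have hc : ∀ f : F, D (algebraMap F E f) = algebraMap F E (DF f) := by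
    intro f
    obtain ⟨p, q, hq, rfl⟩ := IsFractionRing.div_surjective (A := L[X]) f
    have h : ∀ p : L[X], D (algebraMap F E (algebraMap L[X] F p)) = algebraMap F E (DF (algebraMap _ _ p)) := by
      intro p
      rw [hmapF, hDaeval, hDF, hmapF]
      rfl
    rw [map_div₀, Derivation.leibniz_div, Derivation.leibniz_div, h, h]
    simp only [smul_eq_mul, map_mul, map_sub, map_pow, map_inv₀]
    rfl
  have hGF : algebraMap L[X] F (GG g) ≠ 0 := by
    rw [Ne, map_eq_zero_iff _ (IsFractionRing.injective L[X] F)]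
    rintro h0
    rw [h0, eval_zero] at ht0'
    exact ht0' rfl
  have hGE : aeval τ (GG g) ≠ 0 := by
    intro h0
    have := htr _ h0
    rw [this, eval_zero] at ht0'
    exact ht0' rfl
  have hind : AlgebraicIndependent F u := by
    refine Pool.Agent.W253.LF.t_OST L F E DF D hc hconst (Fin r) u
      (fun k => algebraMap L[X] F (qq g k) / algebraMap L[X] F (GG g)) (fun k => ?_) ?_
    · rw [map_div₀, hmapF, hmapF, ← hDy k, mul_div_cancel_right₀ _ hGE]
    · intro c f hf
      obtain ⟨A, ⟨Q, hQm⟩, hrel, hAQ⟩ := IsFractionRing.exists_reduced_fraction L[X] f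
      have hcop : IsCoprime A Q := hrel.isCoprime
      have hQ0 : Q ≠ 0 := nonZeroDivisors.ne_zero hQm
      have hQE : aeval τ Q ≠ 0 := fun h0 => hQ0 (htr _ h0)
      have hf2 : algebraMap F E f = aeval τ A / aeval τ Q := by
        rw [← hAQ, IsFractionRing.mk'_eq_div, map_div₀, hmapF, hmapF]
      have h1 : D (∑ i, algebraMap L E (c i) * u i) * aeval τ (GG g) = aeval τ (∑ k, C (c k) * qq g k) := by
        rw [map_sum, Finset.sum_mul, map_sum]
        refine Finset.sum_congr rfl fun k _ => ?_
        rw [Derivation.leibniz, Derivation.map_algebraMap, smul_zero, add_zero, smul_eq_mul, mul_assoc, hDy, map_mul, aeval_C]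
      have h2 : Q * Q * ∑ k, C (c k) * qq g k = GG g * (Q * derivative A - A * derivative Q) := by
        rw [← sub_eq_zero]
        apply htr
        rw [hf, hf2, Derivation.leibniz_div, hDaeval, hDaeval, smul_eq_mul, smul_eq_mul] at h1
        simp only [map_sub, map_mul] at h1 ⊢
        rw [← h1]
        field_simp
        ring
      exact combos hg c fun ρ => residues g hg.ne_zero c A Q hQ0 hcop h2 ρ
  -- the relation
  have hrel : ∀ P : MvPolynomial (Fin r) L, AnalyticAt L (fun s => MvPolynomial.eval (fun k => y k (t0 + s)) P) 0 ∧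
      T (fun s => MvPolynomial.eval (fun k => y k (t0 + s)) P) = MvPolynomial.aeval u P := by
    intro P
    induction P using MvPolynomial.induction_on with
    | C a =>
      simp only [MvPolynomial.eval_C, MvPolynomial.aeval_C]
      exact ⟨analyticAt_const, hTc a⟩
    | add p q hp hq =>
      simp only [map_add]
      refine ⟨hp.1.add hq.1, ?_⟩
      rw [hTadd _ _ hp.1 hq.1, hp.2, hq.2]
    | mul_X p k hp =>
      simp only [map_mul, MvPolynomial.eval_X, MvPolynomial.aeval_X]
      refine ⟨hp.1.mul (hyan k), ?_⟩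
      rw [hTmul _ _ hp.1 (hyan k), hp.2, hu]
  have h0 : MvPolynomial.aeval u P = 0 := by
    rw [← (hrel P).2]
    have h3 := hTc 0
    rw [map_zero] at h3
    rw [← h3]
    apply hTcongr
    exact hmap.eventually hP
  have h1 : MvPolynomial.map (algebraMap L F) P = 0 := by
    apply hind.eq_zero_of_aeval_eq_zero
    rw [MvPolynomial.aeval_map_algebraMap]
    exact h0
  exact (MvPolynomial.map_injective _ (algebraMap L F).injective) (by rw [h1, map_zero])

end analysis

end Pool.Agent.T9h51.AF
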