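import Mathlib

/-!
# The zeros near the origin of the linear combinations of power series, over complete fields
-/

set_option autoImplicit false

namespace Pool.Agent.T9h51.AF

open Finset

variable {K : Type*} [NontriviallyNormedField K] [CompleteSpace K]

/-- the value of a power series -/
noncomputable def ev (a : ℕ → K) (z : K) : K := ∑' n, a n * z ^ n

omit [CompleteSpace K] in
lemma norm_term (a : ℕ → K) (A R : ℝ) (hR : 0 < R) (ha : ∀ n, ‖a n‖ * R ^ n ≤ A) (z : K) (hz : ‖z‖ ≤ R / 2) (m n : ℕ) :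
    ‖a (m + n) * z ^ n‖ ≤ A / R ^ m * (1 / 2) ^ n := by
  have hA : 0 ≤ A := le_trans (by positivity) (ha 0)
  rw [norm_mul, norm_pow]
  have h1 : ‖a (m + n)‖ ≤ A / R ^ (m + n) := by
    rw [le_div_iff₀ (by positivity)]
    exact ha _
  calc ‖a (m + n)‖ * ‖z‖ ^ n ≤ (A / R ^ (m + n)) * (R / 2) ^ n :=
        mul_le_mul h1 (pow_le_pow_left₀ (norm_nonneg _) hz _) (by positivity) (by positivity)
    _ = _ := by
        rw [pow_add, div_pow, div_pow, one_pow]
        field_simp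

lemma summ (a : ℕ → K) (A R : ℝ) (hR : 0 < R) (ha : ∀ n, ‖a n‖ * R ^ n ≤ A) (z : K) (hz : ‖z‖ ≤ R / 2) (m : ℕ) :
    Summable fun n => a (m + n) * z ^ n := by
  have h1 : Summable fun n : ℕ => A / R ^ m * (1 / 2 : ℝ) ^ n :=
    (summable_geometric_of_lt_one (by norm_num) (by norm_num)).mul_left _
  exact Summable.of_norm_bounded h1 (norm_term a A R hR ha z hz m)

omit [CompleteSpace K] in
lemma norm_tail (a : ℕ → K) (A R : ℝ) (hR : 0 < R) (ha : ∀ n, ‖a n‖ * R ^ n ≤ A) (z : K) (hz : ‖z‖ ≤ R / 2) (m : ℕ) :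
    ‖∑' n, a (m + n) * z ^ n‖ ≤ 2 * A / R ^ m := by
  have h1 : Summable fun n : ℕ => A / R ^ m * (1 / 2 : ℝ) ^ n :=
    (summable_geometric_of_lt_one (by norm_num) (by norm_num)).mul_left _
  refine (tsum_of_norm_bounded h1.hasSum (norm_term a A R hR ha z hz m)).trans (le_of_eq ?_)
  rw [tsum_mul_left, tsum_geometric_of_lt_one (by norm_num) (by norm_num)]
  ring

/-- division by a zero -/
lemma divide (a : ℕ → K) (A R : ℝ) (hR : 0 < R) (ha : ∀ n, ‖a n‖ * R ^ n ≤ A) (z0 : K) (hz0 : ‖z0‖ ≤ R / 2)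
    (h0 : ev a z0 = 0) : ∃ b : ℕ → K, (∀ n, ‖b n‖ * R ^ n ≤ 2 / R * A) ∧ a 0 = -(z0 * b 0) ∧
      (∀ n, a (n + 1) = b n - z0 * b (n + 1)) ∧ ∀ z, ‖z‖ ≤ R / 2 → ev a z = (z - z0) * ev b z := by
  have hA : 0 ≤ A := le_trans (by positivity) (ha 0)
  obtain ⟨b, hb⟩ : ∃ b : ℕ → K, ∀ m, b m = ∑' n, a (m + 1 + n) * z0 ^ n := ⟨_, fun _ => rfl⟩
  have hbb : ∀ n, ‖b n‖ * R ^ n ≤ 2 / R * A := by
    intro m
    have h1 := norm_tail a A R hR ha z0 hz0 (m + 1)
    rw [← hb] at h1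
    calc ‖b m‖ * R ^ m ≤ 2 * A / R ^ (m + 1) * R ^ m := mul_le_mul_of_nonneg_right h1 (by positivity)
      _ = _ := by rw [pow_succ]; field_simp
  have hrec : ∀ m, ∑' n, a (m + n) * z0 ^ n = a m + z0 * b m := by
    intro m
    rw [(summ a A R hR ha z0 hz0 m).tsum_eq_zero_add, hb, ← tsum_mul_left]
    congr 1
    · rw [add_zero, pow_zero, mul_one]
    · apply tsum_congr
      intro n
      have : m + (n + 1) = m + 1 + n := by ring
      rw [this, pow_succ]
      ring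
  have h00 : a 0 + z0 * b 0 = 0 := by
    rw [← hrec 0, ← h0]
    unfold ev
    simp only [zero_add]
  have h1 : a 0 = -(z0 * b 0) := by linear_combination h00
  have h2 : ∀ n, a (n + 1) = b n - z0 * b (n + 1) := by
    intro n
    have := hrec (n + 1)
    rw [← hb] at this
    rw [this]
    ring
  refine ⟨b, hbb, h1, h2, fun z hz => ?_⟩
  have s1 := summ a A R hR ha z hz 0
  have s2 := summ b (2 / R * A) R hR hbb z hz 0
  have s3 := summ b (2 / R * A) R hR hbb z hz 1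
  simp only [zero_add] at s1 s2
  have e1 : ev a z = a 0 + ∑' n, a (n + 1) * z ^ (n + 1) := by
    unfold ev
    rw [s1.tsum_eq_zero_add, pow_zero, mul_one]
  have e2 : ev b z = b 0 + z * ∑' n, b (1 + n) * z ^ n := by
    unfold ev
    rw [s2.tsum_eq_zero_add, pow_zero, mul_one, ← tsum_mul_left]
    congr 1
    apply tsum_congr
    intro n
    rw [add_comm 1 n, pow_succ]
    ring
  have e3 : ∑' n, a (n + 1) * z ^ (n + 1) = z * ev b z - z0 * (z * ∑' n, b (1 + n) * z ^ n) := by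
    have h3 : ∀ n, a (n + 1) * z ^ (n + 1) = z * (b n * z ^ n) - z0 * (z * (b (1 + n) * z ^ n)) := by
      intro n
      rw [h2, add_comm 1 n, pow_succ]
      ring
    rw [tsum_congr h3, (s2.mul_left z).tsum_sub ((s3.mul_left z).mul_left z0), tsum_mul_left, tsum_mul_left, tsum_mul_left]
    rfl
  rw [e1, e3, h1]
  linear_combination z0 * e2

/-- a power series with many zeros near the origin has small first coefficients -/
lemma small_coeffs (R : ℝ) (hR : 0 < R) (hR1 : R ≤ 1) : ∀ N : ℕ, ∃ B : ℝ, 0 ≤ B ∧ ∀ (a : ℕ → K) (A ρ : ℝ), 0 < ρ → ρ ≤ R / 2 →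
    (∀ n, ‖a n‖ * R ^ n ≤ A) → ∀ Z : Finset K, N ≤ Z.card → (∀ z ∈ Z, ‖z‖ ≤ ρ ∧ ev a z = 0) →
    ∀ n < N, ‖a n‖ ≤ ρ * B * A := by
  classical
  intro N
  induction N with
  | zero => exact ⟨0, le_rfl, fun _ _ _ _ _ _ _ _ _ n hn => absurd hn (Nat.not_lt_zero n)⟩
  | succ N ih =>
    obtain ⟨B, hB, ih⟩ := ih
    refine ⟨2 / R * (B + 1 / R ^ (N + 1) + 1), by positivity, fun a A ρ hρ hρR ha Z hZ hz n hn => ?_⟩
    have hA : 0 ≤ A := le_trans (by positivity) (ha 0)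
    obtain ⟨z0, hz0⟩ : ∃ z0, z0 ∈ Z := by
      have : Z.Nonempty := card_pos.1 (by omega)
      exact this
    obtain ⟨hz1, hz2⟩ := hz z0 hz0
    obtain ⟨b, hb1, hb2, hb3, hb4⟩ := divide a A R hR ha z0 (hz1.trans hρR) hz2
    have key := ih b (2 / R * A) ρ hρ hρR hb1 (Z.erase z0) (by rw [card_erase_of_mem hz0]; omega) (fun z hz' => by
      rw [mem_erase] at hz'
      obtain ⟨h1, h2⟩ := hz z hz'.2
      refine ⟨h1, ?_⟩
      rw [hb4 z (h1.trans hρR)] at h2
      exact (mul_eq_zero.1 h2).resolve_left (sub_ne_zero.2 hz'.1))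
    have hbn : ∀ m, m ≤ N + 1 → ‖b m‖ ≤ 1 / R ^ (N + 1) * (2 / R * A) := by
      intro m hm
      have h1 := hb1 m
      have h2 : R ^ (N + 1) ≤ R ^ m := pow_le_pow_of_le_one hR.le hR1 hm
      rw [one_div, inv_mul_eq_div, le_div_iff₀ (by positivity)]
      exact (mul_le_mul_of_nonneg_left h2 (norm_nonneg _)).trans h1
    have h2R : 0 ≤ 2 / R * A := by positivity
    rcases n with _ | n
    · rw [hb2, norm_neg, norm_mul]
      have h1 := hb1 0
      rw [pow_zero, mul_one] at h1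
      calc ‖z0‖ * ‖b 0‖ ≤ ρ * (2 / R * A) := mul_le_mul hz1 h1 (norm_nonneg _) hρ.le
        _ ≤ ρ * ((B + 1 / R ^ (N + 1) + 1) * (2 / R * A)) := by
            apply mul_le_mul_of_nonneg_left _ hρ.le
            have : 0 ≤ 1 / R ^ (N + 1) := by positivity
            nlinarith
        _ = _ := by ring
    · have h1 := key n (by omega)
      have h2 := hbn (n + 1) (by omega)
      rw [hb3]
      calc ‖b n - z0 * b (n + 1)‖ ≤ ‖b n‖ + ‖z0 * b (n + 1)‖ := norm_sub_le _ _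
        _ ≤ ρ * B * (2 / R * A) + ρ * (1 / R ^ (N + 1) * (2 / R * A)) := by
            rw [norm_mul]
            exact add_le_add h1 (mul_le_mul hz1 h2 (norm_nonneg _) hρ.le)
        _ ≤ ρ * B * (2 / R * A) + ρ * (1 / R ^ (N + 1) * (2 / R * A)) + ρ * (2 / R * A) := by
            have : 0 ≤ ρ * (2 / R * A) := by positivity
            linarith
        _ = _ := by ring

/-- **Uniform bound for the zeros near the origin.** -/
theorem local_zeros {ι : Type*} [Fintype ι] (a : ι → ℕ → K) (hind : ∀ c : ι → K, (∀ n, ∑ i, c i * a i n = 0) → c = 0)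
    (hb : ∀ i, ∃ A R : ℝ, 0 < R ∧ ∀ n, ‖a i n‖ * R ^ n ≤ A) :
    ∃ (N : ℕ) (ρ : ℝ), 0 < ρ ∧ ∀ c : ι → K, c ≠ 0 → ∀ Z : Finset K,
      (∀ z ∈ Z, ‖z‖ ≤ ρ ∧ ev (fun n => ∑ i, c i * a i n) z = 0) → Z.card ≤ N := by
  classical
  choose A' R' hR' hb' using hb
  -- common bounds
  obtain ⟨R, hR, hR1, hRi⟩ : ∃ R : ℝ, 0 < R ∧ R ≤ 1 ∧ ∀ i, R ≤ R' i := by
    have h1 : ∀ s : Finset ι, ∃ R : ℝ, 0 < R ∧ R ≤ 1 ∧ ∀ i ∈ s, R ≤ R' i := by
      intro s
      induction s using Finset.induction_on with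
      | empty => exact ⟨1, one_pos, le_rfl, by simp⟩
      | insert i s _ ih =>
        obtain ⟨R, h1, h2, h3⟩ := ih
        refine ⟨min R (R' i), lt_min h1 (hR' i), (min_le_left _ _).trans h2, fun j hj => ?_⟩
        rw [mem_insert] at hj
        rcases hj with rfl | hj
        · exact min_le_right _ _
        · exact (min_le_left _ _).trans (h3 j hj)
    obtain ⟨R, h1, h2, h3⟩ := h1 univ
    exact ⟨R, h1, h2, fun i => h3 i (mem_univ i)⟩
  have hA0 : ∀ i, 0 ≤ A' i := fun i => le_trans (mul_nonneg (norm_nonneg _) (pow_nonneg (hR' i).le _)) (hb' i 0)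
  obtain ⟨A, hA⟩ : ∃ A : ℝ, A = ∑ i, A' i := ⟨_, rfl⟩
  have hAn : 0 ≤ A := by rw [hA]; exact sum_nonneg fun i _ => hA0 i
  have hcomb : ∀ c : ι → K, ∀ n, ‖∑ i, c i * a i n‖ * R ^ n ≤ ‖c‖ * A := by
    intro c n
    rw [hA, mul_sum]
    calc ‖∑ i, c i * a i n‖ * R ^ n ≤ (∑ i, ‖c i * a i n‖) * R ^ n :=
          mul_le_mul_of_nonneg_right (norm_sum_le _ _) (by positivity)
      _ = ∑ i, ‖c i‖ * (‖a i n‖ * R ^ n) := by
          rw [sum_mul]
          apply sum_congr rfl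
          intro i _
          rw [norm_mul]
          ring
      _ ≤ _ := by
          apply sum_le_sum
          intro i _
          apply mul_le_mul (norm_le_pi_norm c i) _ (by positivity) (norm_nonneg _)
          refine le_trans ?_ (hb' i n)
          exact mul_le_mul_of_nonneg_left (pow_le_pow_left₀ hR.le (hRi i) _) (norm_nonneg _)
  -- truncation
  obtain ⟨T, hT⟩ : ∃ T : ∀ d : ℕ, (ι → K) →ₗ[K] (Fin d → K), ∀ d c n, T d c n = ∑ i, c i * a i n := by
    refine ⟨fun d => LinearMap.pi fun n => ∑ i, (a i n) • LinearMap.proj i, fun d c n => ?_⟩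
    rw [LinearMap.pi_apply, LinearMap.sum_apply]
    apply sum_congr rfl
    intro i _
    rw [LinearMap.smul_apply, LinearMap.proj_apply, smul_eq_mul, mul_comm]
  have hanti : ∀ d e : ℕ, d ≤ e → LinearMap.ker (T e) ≤ LinearMap.ker (T d) := by
    intro d e hde c hc
    rw [LinearMap.mem_ker] at hc ⊢
    funext n
    have h1 := congrFun hc (Fin.castLE hde n)
    rw [hT] at h1 ⊢
    exact h1
  obtain ⟨d, hd⟩ := IsArtinian.monotone_stabilizes (R := K) (M := ι → K)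
    ⟨fun d => OrderDual.toDual (LinearMap.ker (T d)), fun d e hde => hanti d e hde⟩
  have hker : LinearMap.ker (T d) = ⊥ := by
    rw [Submodule.eq_bot_iff]
    intro c hc
    apply hind
    intro n
    have h1 : LinearMap.ker (T d) = LinearMap.ker (T (d + n + 1)) := hd (d + n + 1) (by omega)
    rw [h1, LinearMap.mem_ker] at hc
    have h2 := congrFun hc ⟨n, by omega⟩
    rw [hT] at h2
    exact h2
  obtain ⟨κ, hκ, hanti2⟩ := LinearMap.exists_antilipschitzWith (T d) hker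
  have hlow : ∀ c : ι → K, ‖c‖ ≤ κ * ‖T d c‖ := by
    intro c
    have h1 := hanti2.le_mul_dist c 0
    rwa [dist_zero_right, map_zero, dist_zero_right] at h1
  obtain ⟨B, hB, hsmall⟩ := small_coeffs (K := K) R hR hR1 d
  have hκ0 : (0 : ℝ) < κ := hκ
  obtain ⟨ρ, hρ⟩ : ∃ ρ : ℝ, ρ = min (R / 2) (1 / (2 * (κ * B * A + 1))) := ⟨_, rfl⟩
  have hκBA : 0 ≤ κ * B * A := by positivity
  have hρ0 : 0 < ρ := by
    rw [hρ]
    exact lt_min (by positivity) (by positivity)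
  have hρ2 : ρ * (κ * B * A) ≤ 1 / 2 := by
    have h1 : ρ ≤ 1 / (2 * (κ * B * A + 1)) := by rw [hρ]; exact min_le_right _ _
    rw [le_div_iff₀ (by positivity)] at h1
    nlinarith
  refine ⟨d, ρ, hρ0, fun c hc Z hZ => ?_⟩
  by_contra hcon
  push Not at hcon
  have h1 := hsmall (fun n => ∑ i, c i * a i n) (‖c‖ * A) ρ hρ0 (by rw [hρ]; exact min_le_left _ _) (hcomb c) Z hcon.le hZ
  have h2 : ‖T d c‖ ≤ ρ * B * (‖c‖ * A) := by
    rw [pi_norm_le_iff_of_nonneg (by positivity)]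
    intro n
    rw [hT]
    exact h1 n n.2
  have h3 : 0 < ‖c‖ := norm_pos_iff.2 hc
  have h4 := hlow c
  have h5 : ‖c‖ ≤ 1 / 2 * ‖c‖ := by
    calc ‖c‖ ≤ κ * ‖T d c‖ := h4
      _ ≤ κ * (ρ * B * (‖c‖ * A)) := mul_le_mul_of_nonneg_left h2 hκ0.le
      _ = ρ * (κ * B * A) * ‖c‖ := by ring
      _ ≤ _ := mul_le_mul_of_nonneg_right hρ2 h3.le
  linarith

end Pool.Agent.T9h51.AF
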