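import Pool.Agent.T9h51.AF.An
import Pool.Agent.Y921.SR.Pencil

/-!
# One-parameter analytic families of matrices over complete fields
-/

set_option autoImplicit false

namespace Pool.Agent.T9h51.AF

open Finset Filter Topology
open Pool.Agent.Y921.SR (ZeroProp bil)

variable {L : Type} [NontriviallyNormedField L] [CompleteSpace L] {r : ℕ}

/-- the germs of the functions at the point are algebraically independent -/
def IndepAt {L : Type} [NontriviallyNormedField L] (y : Fin r → L → L) (t0 : L) : Prop :=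
  ∀ P : MvPolynomial (Fin r) L, (∀ᶠ t in 𝓝 t0, MvPolynomial.eval (fun k => y k t) P = 0) → P = 0

/-- the exponents -/
noncomputable def ex {n : ℕ} (e : Fin r → Fin (n + 1)) : Fin r →₀ ℕ := Finsupp.equivFunOnFinite.symm fun k => (e k : ℕ)

lemma ex_apply {n : ℕ} (e : Fin r → Fin (n + 1)) (k : Fin r) : ex e k = (e k : ℕ) := rfl

lemma ex_inj {n : ℕ} : Function.Injective (ex : (Fin r → Fin (n + 1)) → (Fin r →₀ ℕ)) := by
  intro e e' h
  funext k
  exact Fin.ext (by rw [← ex_apply, ← ex_apply, h])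

omit [CompleteSpace L] in
/-- a polynomial as a linear combination of the monomials -/
lemma poly_comb {n : ℕ} (P : MvPolynomial (Fin r) L) (hP : P.totalDegree ≤ n) (x : Fin r → L) :
    MvPolynomial.eval x P = ∑ e : Fin r → Fin (n + 1), P.coeff (ex e) * ∏ k, x k ^ (e k : ℕ) := by
  classical
  rw [MvPolynomial.eval_eq']
  have h1 : P.support ⊆ (univ : Finset (Fin r → Fin (n + 1))).image ex := by
    intro m hm
    have h2 := MvPolynomial.le_totalDegree hm
    rw [Finsupp.sum_fintype _ _ (fun _ => rfl)] at h2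
    have h3 : ∀ k, m k < n + 1 := by
      intro k
      have : m k ≤ ∑ i, m i := single_le_sum (f := fun i => m i) (fun _ _ => Nat.zero_le _) (mem_univ k)
      omega
    rw [mem_image]
    refine ⟨fun k => ⟨m k, h3 k⟩, mem_univ _, ?_⟩
    ext k
    rfl
  rw [sum_subset h1 fun m _ hm => by rw [MvPolynomial.notMem_support_iff.1 hm, zero_mul],
    sum_image fun e _ e' _ h => ex_inj h]
  rfl

/-- **Zeros of polynomials in analytic functions.** -/
theorem poly_zeros (y : Fin r → L → L) (T : Set L) (hT : IsCompact T) (hy : ∀ t ∈ T, ∀ k, AnalyticAt L (y k) t)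
    (hind : ∀ t ∈ T, IndepAt y t) (n : ℕ) : ∃ N : ℕ, ∀ P : MvPolynomial (Fin r) L, P ≠ 0 → P.totalDegree ≤ n →
    ∀ Z : Finset L, (∀ t ∈ Z, t ∈ T ∧ MvPolynomial.eval (fun k => y k t) P = 0) → Z.card ≤ N := by
  classical
  obtain ⟨N, hN⟩ := compact_analytic (fun (e : Fin r → Fin (n + 1)) (t : L) => ∏ k, y k t ^ (e k : ℕ)) T hT
    (fun t ht e => by
      have h1 : AnalyticAt L (fun t => ∏ k ∈ (univ : Finset (Fin r)), y k t ^ (e k : ℕ)) t :=
        Finset.analyticAt_fun_prod _ fun k _ => (hy t ht k).fun_pow _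
      exact h1) (fun t0 ht0 c hc => by
      have h1 := hind t0 ht0 (∑ e, MvPolynomial.monomial (ex e) (c e)) (by
        filter_upwards [hc] with t ht
        rw [map_sum, ← ht]
        apply sum_congr rfl
        intro e _
        rw [MvPolynomial.eval_monomial, Finsupp.prod_fintype _ _ (fun _ => pow_zero _)]
        rfl)
      funext e
      have h2 := congrArg (MvPolynomial.coeff (ex e)) h1
      rw [MvPolynomial.coeff_sum, MvPolynomial.coeff_zero] at h2
      simp only [MvPolynomial.coeff_monomial] at h2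
      rw [sum_eq_single e (fun e' _ he => by rw [if_neg fun h => he (ex_inj h)]) (fun h => absurd (mem_univ _) h),
        if_pos rfl] at h2
      exact h2)
  refine ⟨N, fun P hP hPd Z hZ => hN (fun e => P.coeff (ex e)) (fun h0 => hP ?_) Z fun t ht => ⟨(hZ t ht).1, ?_⟩⟩
  · ext m
    rw [MvPolynomial.coeff_zero]
    by_cases hm : m ∈ P.support
    · have h2 := MvPolynomial.le_totalDegree hm
      rw [Finsupp.sum_fintype _ _ (fun _ => rfl)] at h2
      have h3 : ∀ k, m k < n + 1 := by
        intro k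
        have : m k ≤ ∑ i, m i := single_le_sum (f := fun i => m i) (fun _ _ => Nat.zero_le _) (mem_univ k)
        omega
      have h4 : ex (fun k => ⟨m k, h3 k⟩ : Fin r → Fin (n + 1)) = m := by
        ext k
        rfl
      have h5 := congrFun h0 (fun k => ⟨m k, h3 k⟩ : Fin r → Fin (n + 1))
      simp only [h4] at h5
      exact h5
    · exact MvPolynomial.notMem_support_iff.1 hm
  · rw [← poly_comb P hPd]
    exact (hZ t ht).2

/-- the determinant as a polynomial -/
noncomputable def dpol {n : ℕ} (W : Matrix (Fin n) (Fin n) L) (B : Fin r → Matrix (Fin n) (Fin n) L) :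
    MvPolynomial (Fin r) L :=
  (Matrix.of fun i j => MvPolynomial.C (W i j) + ∑ k, MvPolynomial.C (B k i j) * MvPolynomial.X k).det

omit [CompleteSpace L] in
theorem dpol_totalDegree {n : ℕ} (W : Matrix (Fin n) (Fin n) L) (B : Fin r → Matrix (Fin n) (Fin n) L) :
    (dpol W B).totalDegree ≤ n := by
  classical
  unfold dpol
  rw [Matrix.det_apply]
  refine (MvPolynomial.totalDegree_finsetSum _ _).trans (Finset.sup_le fun σ _ => ?_)
  have h0 : (Equiv.Perm.sign σ • ∏ i, (Matrix.of fun i j => MvPolynomial.C (W i j) +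
      ∑ k, MvPolynomial.C (B k i j) * MvPolynomial.X k) (σ i) i).totalDegree ≤
      (∏ i, (Matrix.of fun i j => MvPolynomial.C (W i j) +
      ∑ k, MvPolynomial.C (B k i j) * (MvPolynomial.X k : MvPolynomial (Fin r) L)) (σ i) i).totalDegree := by
    rcases Int.units_eq_one_or (Equiv.Perm.sign σ) with h | h
    · rw [h, one_smul]
    · rw [h, Units.neg_smul, one_smul, MvPolynomial.totalDegree_neg]
  refine h0.trans ((MvPolynomial.totalDegree_finsetProd _ _).trans ?_)
  refine (Finset.sum_le_card_nsmul _ _ 1 fun i _ => ?_).trans (by simp)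
  rw [Matrix.of_apply]
  refine (MvPolynomial.totalDegree_add _ _).trans (max_le (by simp) ?_)
  refine (MvPolynomial.totalDegree_finsetSum _ _).trans (Finset.sup_le fun k _ => ?_)
  refine (MvPolynomial.totalDegree_mul _ _).trans ?_
  rw [MvPolynomial.totalDegree_C, MvPolynomial.totalDegree_X, zero_add]

omit [CompleteSpace L] in
theorem dpol_eval {n : ℕ} (W : Matrix (Fin n) (Fin n) L) (B : Fin r → Matrix (Fin n) (Fin n) L) (x : Fin r → L) :
    MvPolynomial.eval x (dpol W B) = (W + ∑ k, x k • B k).det := by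
  unfold dpol
  rw [RingHom.map_det]
  congr 1
  ext i j
  simp only [RingHom.mapMatrix_apply, Matrix.map_apply, Matrix.of_apply, map_add, map_sum, map_mul, MvPolynomial.eval_C,
    MvPolynomial.eval_X, Matrix.add_apply, Matrix.sum_apply, Matrix.smul_apply, smul_eq_mul]
  congr 1
  exact Finset.sum_congr rfl fun k _ => mul_comm _ _

/-- **Main theorem.** -/
theorem main [CharZero L] (y : Fin r → L → L) (T : Set L) (hT : IsCompact T) (hy : ∀ t ∈ T, ∀ k, AnalyticAt L (y k) t)
    (hind : ∀ t ∈ T, IndepAt y t) (n : ℕ) : ∃ N : ℕ, ∀ (K : Type) [Field K] [Algebra K L] (V : Submodule K L), ZeroProp V →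
    ∀ W : Matrix (Fin n) (Fin n) L, (∀ i j, W i j ∈ V) → ∀ B : Fin r → Matrix (Fin n) (Fin n) K,
    (∃ w v : Fin n → K, w ≠ 0 ∧ v ≠ 0 ∧ ∑ i, ∑ j, (w i * v j) • W i j = 0 ∧ ∀ k, ∑ i, ∑ j, w i * B k i j * v j = 0) ∨
    ∀ Z : Finset L, (∀ t ∈ Z, t ∈ T ∧ (W + ∑ k, y k t • (B k).map (algebraMap K L)).det = 0) → Z.card ≤ N := by
  classical
  obtain ⟨N, hN⟩ := poly_zeros y T hT hy hind n
  refine ⟨N, fun K _ _ V hV W hW B => ?_⟩
  have hcK : CharZero K := (algebraMap K L).charZero
  by_cases hex : ∀ X : Fin r → L, (W + ∑ k, X k • (B k).map (algebraMap K L)).det = 0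
  · left
    obtain ⟨w, v, hw, hv, h1, h2⟩ := Pool.Agent.Y921.SR.family hV W hW B hex
    refine ⟨w, v, hw, hv, h1, fun k => ?_⟩
    rw [← h2 k]
    simp only [dotProduct, Matrix.mulVec, Finset.mul_sum]
    exact Finset.sum_congr rfl fun i _ => Finset.sum_congr rfl fun j _ => by ring
  right
  intro Z hZ
  refine hN (dpol W fun k => (B k).map (algebraMap K L)) (fun h0 => hex fun X => ?_) (dpol_totalDegree _ _) Z
    fun t ht => ⟨(hZ t ht).1, ?_⟩
  · rw [← dpol_eval, h0, map_zero]
  · rw [dpol_eval]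
    exact (hZ t ht).2

end Pool.Agent.T9h51.AF
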