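import Pool.Agent.T9h51.AF.Ind
import Pool.Agent.W398.LF.Log

/-!
# One-parameter families of matrices of `p`-adic logarithms
-/

set_option autoImplicit false

namespace Pool.Agent.T9h51.AF

open Polynomial Filter Topology
open Pool.Agent.Y921.SR (ZeroProp)

variable {r : ℕ}

/-- **The `p`-adic case.** -/
theorem padic (p : ℕ) [Fact p.Prime] (Lg : ℂ_[p] → ℂ_[p]) (hL : Pool.Agent.W289.SL.IsIwasawaLog p Lg)
    (g : Fin r → ℂ_[p][X]) (hg : MultIndep g) (T : Set ℂ_[p]) (hT : IsCompact T) (δ : ℝ) (hδ : 0 < δ) (n : ℕ) :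
    ∃ N : ℕ, ∀ (K : Type) [Field K] [Algebra K ℂ_[p]] (V : Submodule K ℂ_[p]), ZeroProp V →
    ∀ W : Matrix (Fin n) (Fin n) ℂ_[p], (∀ i j, W i j ∈ V) → ∀ B : Fin r → Matrix (Fin n) (Fin n) K,
    (∃ w v : Fin n → K, w ≠ 0 ∧ v ≠ 0 ∧ ∑ i, ∑ j, (w i * v j) • W i j = 0 ∧ ∀ k, ∑ i, ∑ j, w i * B k i j * v j = 0) ∨
    ∀ Z : Finset ℂ_[p], (∀ t ∈ Z, (t ∈ T ∧ ∀ k, δ ≤ ‖(g k).eval t‖) ∧
      (W + ∑ k, Lg ((g k).eval t) • (B k).map (algebraMap K ℂ_[p])).det = 0) → Z.card ≤ N := by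
  have hcl : IsClosed {t : ℂ_[p] | ∀ k, δ ≤ ‖(g k).eval t‖} := by
    rw [Set.setOf_forall]
    refine isClosed_iInter fun k => ?_
    exact isClosed_le continuous_const (by fun_prop)
  have hT' : IsCompact (T ∩ {t : ℂ_[p] | ∀ k, δ ≤ ‖(g k).eval t‖}) := hT.inter_right hcl
  have hne : ∀ t ∈ T ∩ {t : ℂ_[p] | ∀ k, δ ≤ ‖(g k).eval t‖}, ∀ k, (g k).eval t ≠ 0 := by
    intro t ht k h0
    have := ht.2 k
    rw [h0, norm_zero] at this
    linarith
  have hpan : ∀ (P : ℂ_[p][X]) (t : ℂ_[p]), AnalyticAt ℂ_[p] (fun s => P.eval s) t := fun P t =>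
    AnalyticOnNhd.eval_polynomial P t (Set.mem_univ _)
  have han : ∀ t ∈ T ∩ {t : ℂ_[p] | ∀ k, δ ≤ ‖(g k).eval t‖}, ∀ k, AnalyticAt ℂ_[p] (fun s => Lg ((g k).eval s)) t := by
    intro t ht k
    have h1 := (Pool.Agent.W398.LF.t_LOG p Lg hL _ (hne t ht k)).1
    exact AnalyticAt.comp (g := Lg) (f := fun s => (g k).eval s) h1 (hpan _ _)
  obtain ⟨N, hN⟩ := main (fun k t => Lg ((g k).eval t)) _ hT' han (fun t ht => by
    refine log_indep g hg _ t (hne t ht) (han t ht) fun k => ?_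
    have h1 : ∀ᶠ s in 𝓝 t, (g k).eval s ≠ 0 :=
      (g k).continuous.continuousAt.eventually_ne (hne t ht k)
    filter_upwards [h1] with s hs
    have h2 := (Pool.Agent.W398.LF.t_LOG p Lg hL _ hs).2
    have h3 := (g k).hasDerivAt s
    have h4 : HasDerivAt (fun s => Lg ((g k).eval s)) (((g k).eval s)⁻¹ * (derivative (g k)).eval s) s :=
      HasDerivAt.comp s h2 h3
    rw [h4.deriv]
    field_simp) n
  exact ⟨N, fun K _ _ V hV W hW B => hN K V hV W hW B⟩

/-- the integers of a number field are contained in a compact set -/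
theorem integers_compact (p : ℕ) [Fact p.Prime] (k : Type) [Field k] [NumberField k] (τ : k →+* ℂ_[p]) :
    ∃ T : Set ℂ_[p], IsCompact T ∧ ∀ a : NumberField.RingOfIntegers k, τ a ∈ T := by
  classical
  set b := NumberField.RingOfIntegers.basis k with hb
  refine ⟨(fun x : Module.Free.ChooseBasisIndex ℤ (NumberField.RingOfIntegers k) → ℤ_[p] =>
    ∑ i, algebraMap ℚ_[p] ℂ_[p] (x i : ℚ_[p]) * τ (b i)) '' Set.univ, ?_, ?_⟩
  · refine isCompact_univ.image ?_
    refine continuous_finsetSum _ fun i _ => ?_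
    refine Continuous.mul ?_ continuous_const
    have h1 : Continuous (algebraMap ℚ_[p] ℂ_[p]) := continuous_algebraMap ℚ_[p] ℂ_[p]
    exact h1.comp (continuous_subtype_val.comp (continuous_apply i))
  · intro a
    refine ⟨fun i => ((b.repr a i : ℤ) : ℤ_[p]), Set.mem_univ _, ?_⟩
    have h1 := b.sum_repr a
    have h2 := congrArg (fun x : NumberField.RingOfIntegers k => τ (x : k)) h1
    simp only [map_sum] at h2
    show ∑ i, _ = _
    rw [← h2]
    refine Finset.sum_congr rfl fun i _ => ?_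
    simp

end Pool.Agent.T9h51.AF
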